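import Mathlib
import Pool.Agent.W484.CK.HigherMain

/-!
# Beilinson's conjecture for higher Chow groups of products with almost all abelian varieties

Let `g i` (`i` in a finite set `I`) be positive integers, `r` an integer smaller than all the `g i`
and `E` a number field.  For a prime power `q` let `S i` be the set of the characteristic
polynomials of Frobenius of the ordinary abelian varieties of dimension `g i` over the field with `q`
elements, or of all abelian varieties of dimension `g i`, or any set in between.  By Weil, Honda and
Tate its elements correspond to the isogeny classes, the first set contains `ordinaryWeilPolys q
(g i)`, and the second one is contained in `weilPolys q (g i)`.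

The theorem: for all families `f i` in `S i` with the exception of a proportion
`O (q ^ (-1 / 6) log q)`, the constant depending only on `g` and `E`, the following holds for all
`s > 0`, `Q = q ^ s`, all abelian varieties `A` over the field with `Q` elements which are isogenous
to products of powers of abelian varieties coming from the field with `q` elements, with
characteristic polynomials `f i`, and **all** smooth varieties `U` over the field with `Q` elements,
projective or not, such that the Frobenius endomorphism of `U` satisfies on the groups
`CH^j (A × U, n) ⊗ ℚ` an algebraic equation with rational coefficients all of whose roots lie, up to
powers, in a group generated by `E` and `r` numbers.  (This is conjecturally true for all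
`U`: by the equation on the cohomology of `U`.  It is known for all `U` with a stratification by
varieties which are complements of simple normal crossings divisors in varieties dominated by
products of curves such that all intersections of components are such too, if the eigenvalues of
Frobenius of these curves are as required: the motives are finite-dimensional in the sense of
Kimura and O'Sullivan.)

* The higher Chow groups of `A × U` satisfy the Kunneth formula
  `CH^j (A × U, n) ⊗ ℚ = ⨁ D l × CH^(j - deg l) (U, n) ⊗ ℚ` with finitely many products `D l` of
  divisors on `A`, which do not depend on `U`, `n` and `j`.
* **The cycle class maps `CH^j (A × U, n) ⊗ K → H^(2 j - n) (A × U)` are injective for all `j` if and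
  only if the cycle class maps `CH^j (U, n) ⊗ K → H^(2 j - n) (U)` are injective for all `j`**, for
  every `n` separately.

The formal framework is as follows (`TheoryData`, `IsChow`, `IsWeil` are taken from helper492). `C`
are the Chow groups with rational coefficients, `H` is a Weil cohomology theory with coefficients in
an algebraically closed field `K` on a class `𝒱` of smooth proper varieties, which contains `A`
and the point `P`. For fixed `U` and `n` we consider, for `X` in `𝒱`,
`T^j(X) = CH^j(X × U, n) ⊗ K` and `W^j(X) = H^(2 j - n)(X × U)`; these are theories on which the
correspondences between smooth proper varieties act (`IsCoef`), with an endomorphism `frob` induced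
by the Frobenius endomorphism of `U`, and the cycle class map `c` from `T` to `W` is compatible with
correspondences and `frob` (`IsCoefHom`). Here `A × P = A`.

The idea of the proof: by a sieve (helper521), which only uses the primes that split completely in
the Galois closure of `E` - these have positive density by the theorem of Chebotarev, formalized by
helper401 - almost all families are such that each pair `α`, `q / α` of roots can be exchanged by a
Galois automorphism which fixes all the other roots of all the `f i` and also all elements of `E`.
This implies that the eigenvalues of Frobenius on the cohomology of `A` which are of the form
`Q ^ j / ρ`, `ρ` a root of the equation of `frob`, are powers of `Q` with eigenvectors in the span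
of the products of divisors. Let `p` be the projector given by the products of divisors `D l` and
dual classes `E l`. A suitable polynomial `G` in Frobenius is such that `(1 - p) G` is homologically
trivial, hence nilpotent (Kimura), and prime to the equation for `Q ^ j / frob`, which is satisfied
by the Frobenius endomorphism of `A` on `CH^j (A × U, n)`. So `p` acts as the identity.
-/

set_option autoImplicit false

namespace Pool.Agent.Results.MP_b52861_ag.AlmostAllAbelianFactors

open Polynomial Pool.Agent.W521.Descent Pool.Agent.W521.Count Pool.Agent.W484.TB
  Pool.Agent.W484.CK

/-- `weilPolys q g` is the set of monic integral polynomials of degree `2 g` with constant term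
`q ^ g` and all roots of absolute value `√q`; `ordinaryWeilPolys q g` is the subset of those
whose coefficient of index `g` is prime to `q`. -/
theorem result {I : Type} [Fintype I] (g : I → ℕ) (r : ℕ) (hr : ∀ i, r < g i)
    (E : IntermediateField ℚ ℂ) [FiniteDimensional ℚ E] :
    ∃ C : ℝ, ∀ q : ℕ, IsPrimePow q → ∀ S : I → Set ℤ[X],
      (∀ i, ordinaryWeilPolys q (g i) ⊆ S i ∧ S i ⊆ weilPolys q (g i)) →
      (∀ i, (S i).Finite ∧ (S i).Nonempty) ∧
      ({f : I → ℤ[X] | (∀ i, f i ∈ S i) ∧ ¬ HigherInjForRankOver E q r f}.ncard : ℝ) ≤
        C * (Real.log q * (q : ℝ) ^ (-(1 / 6) : ℝ)) * ∏ i, ((S i).ncard : ℝ) :=
  count_of_goodU (splitPrimes E) (dense_splitPrimes E) g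
    (fun i => (Nat.zero_le r).trans_lt (hr i)) (fun q f => HigherInjForRankOver E q r f)
    fun _ hq x hx => higherInjForRankOver_of_good g E hq.one_lt r hr x hx

end Pool.Agent.Results.MP_b52861_ag.AlmostAllAbelianFactors
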